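import Mathlib
import Pool.Agent.Run7.h222.HemiMain

/-!
A positive-fraction version of Kirchberger's theorem, with the rate `g(ε) = 32 (2d+3) ε^(1/(d+1))`.
-/

open Finset Filter Topology
open scoped RealInnerProductSpace

namespace Pool.Agent.Results.MP_ff3a4f_co.PositiveFractionKirchberger

/-- Some hyperplane `{x | ⟪v, x⟫ = c}` with `v ≠ 0` has `P` in one of its open half-spaces and `Q` in
the other one. -/
def Separated {d : ℕ} (P Q : Finset (EuclideanSpace ℝ (Fin d))) : Prop :=
  ∃ (v : EuclideanSpace ℝ (Fin d)) (c : ℝ), v ≠ 0 ∧ (∀ p ∈ P, ⟪v, p⟫ < c) ∧ ∀ q ∈ Q, c < ⟪v, q⟫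

open Classical in
/-- The number of good `(d+2)`-element subsets `S` of `A ∪ B`, those for which some hyperplane
separates `A ∩ S` from `B ∩ S`. -/
noncomputable def goodCount {d : ℕ} (A B : Finset (EuclideanSpace ℝ (Fin d))) : ℕ :=
  #{S ∈ (A ∪ B).powersetCard (d + 2) | Separated (A ∩ S) (B ∩ S)}

/-- The explicit function `g`. -/
noncomputable def g (d : ℕ) (ε : ℝ) : ℝ := 32 * (2 * d + 3) * ε ^ (1 / ((d : ℝ) + 1))

lemma tendsto_g (d : ℕ) : Tendsto (g d) (𝓝 0) (𝓝 0) := by
  have hpos : (0 : ℝ) < 1 / ((d : ℝ) + 1) := by positivity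
  have h1 : Tendsto (fun ε : ℝ => ε ^ (1 / ((d : ℝ) + 1))) (𝓝 0) (𝓝 0) := by
    have := (Real.continuousAt_rpow_const 0 (1 / ((d : ℝ) + 1)) (Or.inr hpos.le)).tendsto
    rwa [Real.zero_rpow hpos.ne'] at this
  have h2 := h1.const_mul (32 * (2 * (d : ℝ) + 3))
  rw [mul_zero] at h2
  exact h2

section aux

variable {d : ℕ}

lemma exists_ne_zero (hd : 1 ≤ d) : ∃ v : EuclideanSpace ℝ (Fin d), v ≠ 0 := by
  refine ⟨EuclideanSpace.single ⟨0, hd⟩ 1, ?_⟩
  simp

lemma separated_empty_left (hd : 1 ≤ d) (Q : Finset (EuclideanSpace ℝ (Fin d))) : Separated ∅ Q := by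
  obtain ⟨v, hv⟩ := exists_ne_zero hd
  obtain ⟨c, hc⟩ := (Q.image (fun q => -⟪v, q⟫)).exists_le
  refine ⟨v, -c - 1, hv, by simp, ?_⟩
  intro q hq
  have := hc (-⟪v, q⟫) (Finset.mem_image_of_mem _ hq)
  linarith

lemma separated_empty_right (hd : 1 ≤ d) (P : Finset (EuclideanSpace ℝ (Fin d))) : Separated P ∅ := by
  obtain ⟨v, hv⟩ := exists_ne_zero hd
  obtain ⟨c, hc⟩ := (P.image (fun q => ⟪v, q⟫)).exists_le
  refine ⟨v, c + 1, hv, ?_, by simp⟩
  intro q hq
  have := hc ⟪v, q⟫ (Finset.mem_image_of_mem _ hq)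
  linarith

/-- affinely independent points can be separated for every 2-colouring -/
lemma separated_of_affineIndependent (hd : 1 ≤ d) (A B : Finset (EuclideanSpace ℝ (Fin d)))
    (hAB : Disjoint A B)
    (haff : AffineIndependent ℝ (fun x : (A ∪ B : Finset (EuclideanSpace ℝ (Fin d))) =>
      (x : EuclideanSpace ℝ (Fin d)))) : Separated A B := by
  classical
  rcases A.eq_empty_or_nonempty with rfl | hA
  · exact separated_empty_left hd B
  rcases B.eq_empty_or_nonempty with rfl | hB
  · exact separated_empty_right hd A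
  have h1 := haff.convexHull_inter (t₁ := A) (t₂ := B) Finset.subset_union_left Finset.subset_union_right
  have h2 : (A : Set (EuclideanSpace ℝ (Fin d))) ∩ B = ∅ := by
    rw [← Finset.coe_inter, Finset.disjoint_iff_inter_eq_empty.mp hAB, Finset.coe_empty]
  rw [h2, convexHull_empty] at h1
  have hdis : Disjoint (convexHull ℝ (A : Set (EuclideanSpace ℝ (Fin d))))
      (convexHull ℝ (B : Set (EuclideanSpace ℝ (Fin d)))) := by
    rw [Set.disjoint_iff_inter_eq_empty, ← h1]
  obtain ⟨f, u, v, hfu, huv, hvf⟩ := geometric_hahn_banach_compact_closed (convex_convexHull ℝ _)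
    (A.finite_toSet.isCompact_convexHull ℝ) (convex_convexHull ℝ _)
    (B.finite_toSet.isCompact_convexHull ℝ).isClosed hdis
  refine ⟨(InnerProductSpace.toDual ℝ _).symm f, u, ?_, ?_, ?_⟩
  · intro h0
    have hf0 : f = 0 := by
      rw [← (InnerProductSpace.toDual ℝ (EuclideanSpace ℝ (Fin d))).map_eq_zero_iff (x := _)] at h0
      simpa using h0
    obtain ⟨a, ha⟩ := hA
    obtain ⟨b, hb⟩ := hB
    have e1 := hfu a (subset_convexHull ℝ _ ha)
    have e2 := hvf b (subset_convexHull ℝ _ hb)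
    rw [hf0] at e1 e2
    simp at e1 e2
    linarith
  · intro p hp
    rw [InnerProductSpace.toDual_symm_apply]
    exact hfu p (subset_convexHull ℝ _ hp)
  · intro q hq
    rw [InnerProductSpace.toDual_symm_apply]
    exact huv.trans (hvf q (subset_convexHull ℝ _ hq))

open Classical in
/-- the lifted vectors -/
noncomputable def lift (B : Finset (EuclideanSpace ℝ (Fin d))) (p : EuclideanSpace ℝ (Fin d)) :
    WithLp 2 (EuclideanSpace ℝ (Fin d) × ℝ) :=
  if p ∈ B then WithLp.toLp 2 (p, 1) else WithLp.toLp 2 (-p, -1)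

lemma inner_lift_of_mem {B : Finset (EuclideanSpace ℝ (Fin d))} {p : EuclideanSpace ℝ (Fin d)} (hp : p ∈ B)
    (w : WithLp 2 (EuclideanSpace ℝ (Fin d) × ℝ)) :
    ⟪w, lift B p⟫ = ⟪w.ofLp.1, p⟫ + w.ofLp.2 := by
  rw [lift, if_pos hp, WithLp.prod_inner_apply]
  simp

lemma inner_lift_of_notMem {B : Finset (EuclideanSpace ℝ (Fin d))} {p : EuclideanSpace ℝ (Fin d)} (hp : p ∉ B)
    (w : WithLp 2 (EuclideanSpace ℝ (Fin d) × ℝ)) :
    ⟪w, lift B p⟫ = -(⟪w.ofLp.1, p⟫ + w.ofLp.2) := by
  rw [lift, if_neg hp, WithLp.prod_inner_apply]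
  simp
  ring

open Run7.h222.Hemi in
lemma good_of_separated {A B : Finset (EuclideanSpace ℝ (Fin d))}
    [DecidableEq (EuclideanSpace ℝ (Fin d))]
    {S : Finset (EuclideanSpace ℝ (Fin d))} (hS : S ⊆ A ∪ B) (h : Separated (A ∩ S) (B ∩ S)) :
    Good (lift B) S := by
  obtain ⟨v, c, -, h1, h2⟩ := h
  refine ⟨WithLp.toLp 2 (v, -c), ?_⟩
  intro p hp
  by_cases hpB : p ∈ B
  · rw [inner_lift_of_mem hpB]
    have := h2 p (Finset.mem_inter.mpr ⟨hpB, hp⟩)
    simp only
    linarith
  · rw [inner_lift_of_notMem hpB]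
    have hpA : p ∈ A := by
      have := hS hp
      rw [Finset.mem_union] at this
      exact this.resolve_right hpB
    have := h1 p (Finset.mem_inter.mpr ⟨hpA, hp⟩)
    simp only
    linarith

end aux

open Run7.h222.Hemi in
/-- **Positive-fraction Kirchberger theorem.** -/
theorem result (d : ℕ) (hd : 1 ≤ d) :
    Tendsto (g d) (𝓝 0) (𝓝 0) ∧
    ∀ (ε : ℝ), 0 ≤ ε → ∀ (N : ℕ) (A B : Finset (EuclideanSpace ℝ (Fin d))),
      Disjoint A B → #A = N → #B = N →
      (d + 2 ≤ 2 * N ∨
        AffineIndependent ℝ (fun x : (A ∪ B : Finset (EuclideanSpace ℝ (Fin d))) =>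
          (x : EuclideanSpace ℝ (Fin d)))) →
      (1 - ε) * ((2 * N).choose (d + 2) : ℝ) ≤ (goodCount A B : ℝ) →
      ∃ A' ⊆ A, ∃ B' ⊆ B, Separated A' B' ∧
        (1 - g d ε) * N ≤ (#A' : ℝ) ∧ (1 - g d ε) * N ≤ (#B' : ℝ) := by
  classical
  refine ⟨tendsto_g d, ?_⟩
  intro ε hε N A B hAB hA hB hgp hgood
  have hg0 : 0 ≤ g d ε := by
    unfold g
    positivity
  rcases hgp with hN | haff
  swap
  · refine ⟨A, Finset.Subset.refl _, B, Finset.Subset.refl _,
      separated_of_affineIndependent hd A B hAB (by convert haff), ?_, ?_⟩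
    · rw [hA]; nlinarith [Nat.cast_nonneg (α := ℝ) N]
    · rw [hB]; nlinarith [Nat.cast_nonneg (α := ℝ) N]
  -- main case
  have hfr : Module.finrank ℝ (WithLp 2 (EuclideanSpace ℝ (Fin d) × ℝ)) = d + 1 := by
    rw [(WithLp.linearEquiv 2 ℝ (EuclideanSpace ℝ (Fin d) × ℝ)).finrank_eq]
    simp
  set S := A ∪ B with hS
  have hScard : #S = 2 * N := by
    rw [hS, Finset.card_union_of_disjoint hAB, hA, hB]; ring
  have hcount : badCount (lift B) S (d + 1 + 1) + goodCount A B ≤ (2 * N).choose (d + 2) := by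
    rw [badCount, goodCount, ← hScard, ← Finset.card_powersetCard]
    rw [← Finset.card_union_of_disjoint]
    · apply Finset.card_le_card
      intro T hT
      rw [Finset.mem_union, Finset.mem_filter, Finset.mem_filter] at hT
      rcases hT with hT | hT
      · exact hT.1
      · convert hT.1
    · rw [Finset.disjoint_left]
      intro T hT hT'
      rw [Finset.mem_filter] at hT hT'
      apply hT.2
      apply good_of_separated (A := A)
      · exact (Finset.mem_powersetCard.mp hT.1).1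
      · convert hT'.2
  set t : ℝ := ε ^ (1 / ((d : ℝ) + 1)) with ht
  have ht0 : 0 ≤ t := by positivity
  have htpow : t ^ (d + 1) = ε := by
    rw [ht, ← Real.rpow_natCast, ← Real.rpow_mul hε]
    have : (1 / ((d : ℝ) + 1)) * ((d + 1 : ℕ) : ℝ) = 1 := by
      push_cast
      field_simp
    rw [this, Real.rpow_one]
  have hbad : (badCount (lift B) S (d + 1 + 1) : ℝ) ≤ t ^ (d + 1) * (#S).choose (d + 1 + 1) := by
    rw [htpow, hScard]
    have : (badCount (lift B) S (d + 1 + 1) : ℝ) + goodCount A B ≤ ((2 * N).choose (d + 2) : ℝ) := by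
      exact_mod_cast hcount
    have e : d + 1 + 1 = d + 2 := rfl
    rw [e] at this ⊢
    linarith
  obtain ⟨w, hw⟩ := exists_few_conflicts (lift B) S (d + 1) hfr (by omega) (by omega) t ht0 hbad
  rw [hScard] at hw
  have hconf : (conf (lift B) S w : ℝ) ≤ g d ε * N := by
    refine hw.trans (le_of_eq ?_)
    rw [g, ← ht]
    push_cast
    ring
  set A' := {a ∈ A | 0 < ⟪w, lift B a⟫} with hA'
  set B' := {b ∈ B | 0 < ⟪w, lift B b⟫} with hB'
  have hcA : #A ≤ #A' + conf (lift B) S w := by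
    rw [← Finset.card_filter_add_card_filter_not (s := A) (fun a => 0 < ⟪w, lift B a⟫)]
    apply Nat.add_le_add_left
    apply Finset.card_le_card
    exact Finset.filter_subset_filter _ Finset.subset_union_left
  have hcB : #B ≤ #B' + conf (lift B) S w := by
    rw [← Finset.card_filter_add_card_filter_not (s := B) (fun a => 0 < ⟪w, lift B a⟫)]
    apply Nat.add_le_add_left
    apply Finset.card_le_card
    exact Finset.filter_subset_filter _ Finset.subset_union_right
  have hcA' : (N : ℝ) ≤ #A' + conf (lift B) S w := by rw [← hA]; exact_mod_cast hcA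
  have hcB' : (N : ℝ) ≤ #B' + conf (lift B) S w := by rw [← hB]; exact_mod_cast hcB
  refine ⟨A', Finset.filter_subset _ _, B', Finset.filter_subset _ _, ?_, by linarith, by linarith⟩
  have hAn : ∀ a ∈ A', a ∉ B := fun a ha hb =>
    (Finset.disjoint_left.mp hAB) (Finset.mem_filter.mp ha).1 hb
  by_cases hv : w.ofLp.1 = 0
  · -- constant sign
    by_cases hc : 0 < w.ofLp.2
    · have : A' = ∅ := by
        rw [Finset.eq_empty_iff_forall_notMem]
        intro a ha
        have h1 := (Finset.mem_filter.mp ha).2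
        rw [inner_lift_of_notMem (hAn a ha), hv, inner_zero_left] at h1
        linarith
      rw [this]
      exact separated_empty_left hd B'
    · have : B' = ∅ := by
        rw [Finset.eq_empty_iff_forall_notMem]
        intro b hb
        have h1 := (Finset.mem_filter.mp hb).2
        rw [inner_lift_of_mem (Finset.mem_filter.mp hb).1, hv, inner_zero_left] at h1
        linarith
      rw [this]
      exact separated_empty_right hd A'
  · refine ⟨w.ofLp.1, -w.ofLp.2, hv, ?_, ?_⟩
    · intro a ha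
      have h1 := (Finset.mem_filter.mp ha).2
      rw [inner_lift_of_notMem (hAn a ha)] at h1
      linarith
    · intro b hb
      have h1 := (Finset.mem_filter.mp hb).2
      rw [inner_lift_of_mem (Finset.mem_filter.mp hb).1] at h1
      linarith

end Pool.Agent.Results.MP_ff3a4f_co.PositiveFractionKirchberger
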